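import Mathlib

/-!
# SQ0, Cost: static lemmas for the algorithm on the line

Parts (5) and (6) of the proof of the bound `O(√(log n))` in abstract form: an interval of edges with
positive numbers `u k` (the reciprocals of the regularized capacities), a finite set `S` of saturated
edges, and a split `mL`, `mR` of the mass of a step with `mL * RL = mR * RR`.
-/

set_option autoImplicit false

namespace Pool.Agent.Lib.MP_a4c1f4_lc.SQ0

open Finset

/-- Regularity: every `u k` is at most `C` times the mean of `u` over every interval of edges around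
`k`. -/
def Reg (E : ℕ) (u : ℕ → ℝ) (C : ℝ) : Prop :=
  (∀ k, k < E → 0 < u k) ∧
  ∀ i j k : ℕ, i ≤ k → k < j → j ≤ E → u k * ((j : ℝ) - i) ≤ C * ∑ x ∈ Ico i j, u x

/-- The resistance of an edge in a step; it is zero if the edge is saturated. -/
def ub (S : Finset ℕ) (u : ℕ → ℝ) (k : ℕ) : ℝ := if k ∈ S then 0 else u k

/-- The saturated edges of an interval. -/
def sat (S : Finset ℕ) (i j : ℕ) : Finset ℕ := (Ico i j).filter (fun k => k ∈ S)

theorem ub_nonneg {E : ℕ} {u : ℕ → ℝ} {C : ℝ} (h : Reg E u C) (S : Finset ℕ) {k : ℕ} (hk : k < E) :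
    0 ≤ ub S u k := by
  unfold ub
  split_ifs
  · exact le_refl _
  · exact (h.1 k hk).le

theorem ub_le {E : ℕ} {u : ℕ → ℝ} {C : ℝ} (h : Reg E u C) (S : Finset ℕ) {k : ℕ} (hk : k < E) :
    ub S u k ≤ u k := by
  unfold ub
  split_ifs
  · exact (h.1 k hk).le
  · exact le_refl _

theorem sum_ub_nonneg {E : ℕ} {u : ℕ → ℝ} {C : ℝ} (h : Reg E u C) (S : Finset ℕ) {i j : ℕ}
    (hj : j ≤ E) : 0 ≤ ∑ k ∈ Ico i j, ub S u k :=
  Finset.sum_nonneg fun k hk => ub_nonneg h S (by rw [Finset.mem_Ico] at hk; omega)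

theorem sum_ub_le {E : ℕ} {u : ℕ → ℝ} {C : ℝ} (h : Reg E u C) (S : Finset ℕ) {i j : ℕ}
    (hj : j ≤ E) : ∑ k ∈ Ico i j, ub S u k ≤ ∑ k ∈ Ico i j, u k :=
  Finset.sum_le_sum fun k hk => ub_le h S (by rw [Finset.mem_Ico] at hk; omega)

theorem sum_u_pos {E : ℕ} {u : ℕ → ℝ} {C : ℝ} (h : Reg E u C) {i j : ℕ} (hij : i < j)
    (hj : j ≤ E) : 0 < ∑ k ∈ Ico i j, u k :=
  Finset.sum_pos (fun k hk => h.1 k (by rw [Finset.mem_Ico] at hk; omega))
    ⟨i, Finset.mem_Ico.2 ⟨le_refl _, hij⟩⟩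

/-- The unsaturated part and the saturated part. -/
theorem sum_split (S : Finset ℕ) (u : ℕ → ℝ) (i j : ℕ) :
    ∑ k ∈ Ico i j, u k = ∑ k ∈ Ico i j, ub S u k + ∑ k ∈ sat S i j, u k := by
  unfold sat ub
  rw [Finset.sum_filter, ← Finset.sum_add_distrib]
  refine Finset.sum_congr rfl fun k _ => ?_
  split_ifs <;> ring

/-- A set of edges inside an interval. -/
theorem sum_sub_le {E : ℕ} {u : ℕ → ℝ} {C : ℝ} (h : Reg E u C) {i j : ℕ} (hj : j ≤ E)
    (X : Finset ℕ) (hX : X ⊆ Ico i j) :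
    (∑ k ∈ X, u k) * ((j : ℝ) - i) ≤ (X.card : ℝ) * (C * ∑ k ∈ Ico i j, u k) := by
  rw [Finset.sum_mul]
  have : ∑ k ∈ X, u k * ((j : ℝ) - i) ≤ ∑ _k ∈ X, (C * ∑ x ∈ Ico i j, u x) := by
    refine Finset.sum_le_sum fun k hk => ?_
    have := Finset.mem_Ico.1 (hX hk)
    exact h.2 i j k this.1 this.2 hj
  rw [Finset.sum_const, nsmul_eq_mul] at this
  exact this

/-- The arithmetic of (5). -/
theorem cost_alg (C l r uL uR RL RR mL nL st : ℝ) (hC : 1 ≤ C) (hl : 0 < l) (hr : 0 < r)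
    (huL : 0 < uL) (hRL : uL - st ≤ RL) (hst : st * l ≤ nL * (C * uL)) (hRR : RR ≤ uR)
    (hreg : uR * (l + r) ≤ r * (C * (uL + uR))) (hm : 0 ≤ mL) (hm1 : mL ≤ 1)
    (hbal : mL * RL ≤ RR) (hn : 0 ≤ nL) : mL * l ≤ 4 * C * r + 2 * C * (mL * nL) := by
  have hC0 : 0 < C := by linarith
  have hCr : 0 < C * r := mul_pos hC0 hr
  have hmn : 0 ≤ C * (mL * nL) := mul_nonneg hC0.le (mul_nonneg hm hn)
  by_cases h1 : l ≤ 2 * C * nL
  · have := mul_le_mul_of_nonneg_left h1 hm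
    nlinarith
  have h1 : 2 * C * nL < l := not_le.1 h1
  by_cases h2 : l + r ≤ 2 * C * r
  · have h3 : mL * l ≤ 1 * l := mul_le_mul_of_nonneg_right hm1 hl.le
    nlinarith
  have h2 : 2 * C * r < l + r := not_le.1 h2
  have h3 : st < uL / 2 := by
    by_contra hc
    have hc : uL / 2 ≤ st := not_lt.1 hc
    have h4 : uL / 2 * l ≤ st * l := mul_le_mul_of_nonneg_right hc hl.le
    have h5 : 2 * C * nL * uL < l * uL := mul_lt_mul_of_pos_right h1 huL
    nlinarith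
  have h4 : mL * (uL / 2) ≤ mL * RL := mul_le_mul_of_nonneg_left (by linarith) hm
  have h5 : mL * uL ≤ 2 * uR := by linarith
  have huR : 0 ≤ uR := by nlinarith [mul_nonneg hm huL.le]
  have h6 : uR * (l + r) ≤ 2 * (r * C * uL) := by
    have h7 : uR * (2 * C * r) ≤ uR * (l + r) := mul_le_mul_of_nonneg_left h2.le huR
    nlinarith
  have h8 : uR * l ≤ uR * (l + r) := mul_le_mul_of_nonneg_left (by linarith) huR
  have h9 : mL * l * uL ≤ 4 * C * r * uL := by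
    have : mL * uL * l ≤ 2 * uR * l := mul_le_mul_of_nonneg_right h5 hl.le
    nlinarith
  have h10 : mL * l ≤ 4 * C * r := le_of_mul_le_mul_right h9 huL
  linarith

/-- The split of the mass of a step. -/
def Spl (u : ℕ → ℝ) (S : Finset ℕ) (gl v gr : ℕ) (mL mR : ℝ) : Prop :=
  0 ≤ mL ∧ 0 ≤ mR ∧ mL + mR = 1 ∧
    mL * ∑ k ∈ Ico gl v, ub S u k = mR * ∑ k ∈ Ico v gr, ub S u k

/-- (5), the right side is the shorter one. -/
theorem costL {E : ℕ} {u : ℕ → ℝ} {C : ℝ} (h : Reg E u C) (hC : 1 ≤ C) (S : Finset ℕ)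
    {gl v gr : ℕ} (h1 : gl < v) (h2 : v < gr) (h3 : gr ≤ E) {mL mR : ℝ} (hs : Spl u S gl v gr mL mR) :
    mL * ((v : ℝ) - gl) ≤ 4 * C * ((gr : ℝ) - v) + 2 * C * (mL * ((sat S gl v).card : ℝ)) := by
  obtain ⟨hm, hm', hm1, hb⟩ := hs
  have c1 : (gl : ℝ) < v := by exact_mod_cast h1
  have c2 : (v : ℝ) < gr := by exact_mod_cast h2
  have e1 := sum_split S u gl v
  refine cost_alg C ((v : ℝ) - gl) ((gr : ℝ) - v) (∑ k ∈ Ico gl v, u k) (∑ k ∈ Ico v gr, u k)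
    (∑ k ∈ Ico gl v, ub S u k) (∑ k ∈ Ico v gr, ub S u k) mL ((sat S gl v).card : ℝ)
    (∑ k ∈ sat S gl v, u k) hC (by linarith) (by linarith) (sum_u_pos h h1 (by omega)) (by linarith)
    (sum_sub_le h (by omega) _ (Finset.filter_subset _ _)) (sum_ub_le h S h3) ?_ hm (by linarith) ?_
    (by positivity)
  · have e2 : ∑ k ∈ Ico gl gr, u k = ∑ k ∈ Ico gl v, u k + ∑ k ∈ Ico v gr, u k :=
      (Finset.sum_Ico_consecutive u h1.le h2.le).symm
    have h4 := sum_sub_le h h3 (Ico v gr) (Finset.Ico_subset_Ico_left h1.le : Ico v gr ⊆ Ico gl gr)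
    rw [Nat.card_Ico, Nat.cast_sub h2.le, e2] at h4
    have e3 : (v : ℝ) - gl + ((gr : ℝ) - v) = (gr : ℝ) - gl := by ring
    rw [e3]
    exact h4
  · have h5 : 0 ≤ ∑ k ∈ Ico v gr, ub S u k := sum_ub_nonneg h S h3
    rw [hb]
    have : mR * ∑ k ∈ Ico v gr, ub S u k ≤ 1 * ∑ k ∈ Ico v gr, ub S u k :=
      mul_le_mul_of_nonneg_right (by linarith) h5
    linarith

/-- (5), the left side is the shorter one. -/
theorem costR {E : ℕ} {u : ℕ → ℝ} {C : ℝ} (h : Reg E u C) (hC : 1 ≤ C) (S : Finset ℕ)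
    {gl v gr : ℕ} (h1 : gl < v) (h2 : v < gr) (h3 : gr ≤ E) {mL mR : ℝ} (hs : Spl u S gl v gr mL mR) :
    mR * ((gr : ℝ) - v) ≤ 4 * C * ((v : ℝ) - gl) + 2 * C * (mR * ((sat S v gr).card : ℝ)) := by
  obtain ⟨hm, hm', hm1, hb⟩ := hs
  have c1 : (gl : ℝ) < v := by exact_mod_cast h1
  have c2 : (v : ℝ) < gr := by exact_mod_cast h2
  have e1 := sum_split S u v gr
  refine cost_alg C ((gr : ℝ) - v) ((v : ℝ) - gl) (∑ k ∈ Ico v gr, u k) (∑ k ∈ Ico gl v, u k)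
    (∑ k ∈ Ico v gr, ub S u k) (∑ k ∈ Ico gl v, ub S u k) mR ((sat S v gr).card : ℝ)
    (∑ k ∈ sat S v gr, u k) hC (by linarith) (by linarith) (sum_u_pos h h2 h3) (by linarith)
    (sum_sub_le h h3 _ (Finset.filter_subset _ _)) (sum_ub_le h S (by omega)) ?_ hm' (by linarith) ?_
    (by positivity)
  · have e2 : ∑ k ∈ Ico gl gr, u k = ∑ k ∈ Ico gl v, u k + ∑ k ∈ Ico v gr, u k :=
      (Finset.sum_Ico_consecutive u h1.le h2.le).symm
    have h4 := sum_sub_le h h3 (Ico gl v) (Finset.Ico_subset_Ico_right h2.le : Ico gl v ⊆ Ico gl gr)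
    rw [Nat.card_Ico, Nat.cast_sub h1.le, e2] at h4
    have e3 : (gr : ℝ) - v + ((v : ℝ) - gl) = (gr : ℝ) - gl := by ring
    rw [e3, add_comm (∑ k ∈ Ico v gr, u k)]
    exact h4
  · have h5 : 0 ≤ ∑ k ∈ Ico gl v, ub S u k := sum_ub_nonneg h S (by omega)
    rw [← hb]
    have : mL * ∑ k ∈ Ico gl v, ub S u k ≤ 1 * ∑ k ∈ Ico gl v, ub S u k :=
      mul_le_mul_of_nonneg_right (by linarith) h5
    linarith

/-- (5): the cost of a step with both sides present. -/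
theorem cost {E : ℕ} {u : ℕ → ℝ} {C : ℝ} (h : Reg E u C) (hC : 1 ≤ C) (S : Finset ℕ)
    {gl v gr : ℕ} (h1 : gl < v) (h2 : v < gr) (h3 : gr ≤ E) {mL mR : ℝ} (hs : Spl u S gl v gr mL mR) :
    mL * ((v : ℝ) - gl) + mR * ((gr : ℝ) - v) ≤
      (4 * C + 1) * (min ((v : ℝ) - gl) ((gr : ℝ) - v) +
        (mL * ((sat S gl v).card : ℝ) + mR * ((sat S v gr).card : ℝ))) := by
  have a := costL h hC S h1 h2 h3 hs
  have b := costR h hC S h1 h2 h3 hs
  obtain ⟨hm, hm', hm1, hb⟩ := hs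
  have c1 : (gl : ℝ) < v := by exact_mod_cast h1
  have c2 : (v : ℝ) < gr := by exact_mod_cast h2
  have nL : 0 ≤ mL * ((sat S gl v).card : ℝ) := by positivity
  have nR : 0 ≤ mR * ((sat S v gr).card : ℝ) := by positivity
  have k1 : 0 ≤ C * (mL * ((sat S gl v).card : ℝ)) := by positivity
  have k2 : 0 ≤ C * (mR * ((sat S v gr).card : ℝ)) := by positivity
  rcases le_total ((v : ℝ) - gl) ((gr : ℝ) - v) with hh | hh
  · rw [min_eq_left hh]
    have : mL * ((v : ℝ) - gl) ≤ 1 * ((v : ℝ) - gl) :=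
      mul_le_mul_of_nonneg_right (by linarith) (by linarith)
    nlinarith
  · rw [min_eq_right hh]
    have : mR * ((gr : ℝ) - v) ≤ 1 * ((gr : ℝ) - v) :=
      mul_le_mul_of_nonneg_right (by linarith) (by linarith)
    nlinarith

/-- The unsaturated part of an interval with few saturated edges. -/
theorem half {E : ℕ} {u : ℕ → ℝ} {C : ℝ} (h : Reg E u C) (S : Finset ℕ)
    {i j : ℕ} (hij : i < j) (hj : j ≤ E) (hs : 2 * C * ((sat S i j).card : ℝ) < (j : ℝ) - i) :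
    (∑ k ∈ Ico i j, u k) / 2 ≤ ∑ k ∈ Ico i j, ub S u k := by
  have e1 := sum_split S u i j
  have h1 := sum_sub_le h hj (sat S i j) (Finset.filter_subset _ _)
  have hp := sum_u_pos h hij hj
  have c1 : (i : ℝ) < j := by exact_mod_cast hij
  have h2 : 2 * C * ((sat S i j).card : ℝ) * ∑ k ∈ Ico i j, u k ≤
      ((j : ℝ) - i) * ∑ k ∈ Ico i j, u k := mul_le_mul_of_nonneg_right hs.le hp.le
  have h3 : (∑ k ∈ sat S i j, u k) * ((j : ℝ) - i) ≤ (∑ k ∈ Ico i j, u k) / 2 * ((j : ℝ) - i) := by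
    nlinarith
  have h4 := le_of_mul_le_mul_right h3 (by linarith : (0 : ℝ) < (j : ℝ) - i)
  linarith

/-- A short interval next to an interval with `H` edges. -/
theorem shortAlg (C H d uZ ux : ℝ) (hH : 0 < H) (hd : 0 ≤ d) (huZ : 0 < uZ)
    (hx : 0 ≤ ux) (hreg : ux * (d + H) ≤ d * (C * (ux + uZ))) (hdH : 9 * C * d ≤ H) :
    ux ≤ uZ / 8 := by
  have h1 : d * C * (ux + uZ) ≤ H / 9 * (ux + uZ) :=
    mul_le_mul_of_nonneg_right (by linarith) (by linarith)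
  have h2 : ux * H ≤ H / 9 * (ux + uZ) := by nlinarith
  have h3 : ux * H ≤ (ux + uZ) / 9 * H := by linarith
  have h4 := le_of_mul_le_mul_right h3 hH
  linarith

/-- (6): the raise of the price, the larger part of the mass goes to the right. `Z` is the interval
`[v, v + H)`. -/
theorem raiseR {E : ℕ} {u : ℕ → ℝ} {C : ℝ} (h : Reg E u C) (hC : 1 ≤ C) (S : Finset ℕ)
    {v H gr : ℕ} (hH : 1 ≤ H) (h2 : v + H ≤ gr) (h3 : gr ≤ E) {mL mR : ℝ} (hm : 0 ≤ mL)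
    (hle : mL ≤ mR) (hmR : 1 / 2 ≤ mR)
    (hs : 2 * C * ((sat S v (v + H)).card : ℝ) < H) :
    (∀ x, x ≤ v → 9 * C * ((v : ℝ) - x) ≤ H → 3 / 16 * ∑ k ∈ Ico v (v + H), u k ≤
      mR * ∑ k ∈ Ico v gr, ub S u k - mL * ∑ k ∈ Ico x v, ub S u k) ∧
    (∀ x, v ≤ x → 9 * C * ((x : ℝ) - v) ≤ H → 3 / 16 * ∑ k ∈ Ico v (v + H), u k ≤
      mR * ∑ k ∈ Ico v gr, ub S u k - mR * ∑ k ∈ Ico v x, ub S u k) := by
  have hHr : (1 : ℝ) ≤ H := by exact_mod_cast hH
  have hZp := sum_u_pos h (by omega : v < v + H) (by omega : v + H ≤ E)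
  have hZ2 : (∑ k ∈ Ico v (v + H), u k) / 2 ≤ ∑ k ∈ Ico v (v + H), ub S u k := by
    refine half h S (by omega) (by omega) ?_
    push_cast
    linarith
  have e1 : ∑ k ∈ Ico v (v + H), ub S u k + ∑ k ∈ Ico (v + H) gr, ub S u k =
      ∑ k ∈ Ico v gr, ub S u k := Finset.sum_Ico_consecutive _ (by omega) h2
  have e2 : 0 ≤ ∑ k ∈ Ico (v + H) gr, ub S u k := sum_ub_nonneg h S h3
  have hRR : (∑ k ∈ Ico v (v + H), u k) / 2 ≤ ∑ k ∈ Ico v gr, ub S u k := by linarith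
  have hq : (∑ k ∈ Ico v (v + H), u k) / 4 ≤ mR * ∑ k ∈ Ico v gr, ub S u k := by
    have : (1 / 2 : ℝ) * ((∑ k ∈ Ico v (v + H), u k) / 2) ≤ mR * ∑ k ∈ Ico v gr, ub S u k :=
      mul_le_mul hmR hRR (by linarith) (by linarith)
    linarith
  have key : ∀ w : ℝ, 0 ≤ w → w ≤ (∑ k ∈ Ico v (v + H), u k) / 8 → ∀ m : ℝ, 0 ≤ m → m ≤ mR →
      3 / 16 * ∑ k ∈ Ico v (v + H), u k ≤ mR * ∑ k ∈ Ico v gr, ub S u k - m * w := by
    intro w hw0 hw m hm0 hmm
    have a1 : m * w ≤ mR * w := mul_le_mul_of_nonneg_right hmm hw0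
    have a2 : mR * w ≤ mR * ((∑ k ∈ Ico v gr, ub S u k) / 4) :=
      mul_le_mul_of_nonneg_left (by linarith) (by linarith)
    nlinarith
  constructor
  · intro x hx hd
    have hxr : (x : ℝ) ≤ v := by exact_mod_cast hx
    have hb := sum_ub_le h S (by omega : v ≤ E) (i := x)
    have hu0 : 0 ≤ ∑ k ∈ Ico x v, u k := le_trans (sum_ub_nonneg h S (by omega)) hb
    refine key _ (sum_ub_nonneg h S (by omega)) (le_trans hb ?_) mL hm hle
    refine shortAlg C H ((v : ℝ) - x) _ _ (by linarith) (by linarith) hZp hu0 ?_ hd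
    have h4 := sum_sub_le h (by omega : v + H ≤ E) (Ico x v)
      (Finset.Ico_subset_Ico_right (by omega) : Ico x v ⊆ Ico x (v + H))
    rw [Nat.card_Ico, Nat.cast_sub hx,
      ← Finset.sum_Ico_consecutive u hx (by omega : v ≤ v + H)] at h4
    push_cast at h4
    have e3 : (v : ℝ) - x + H = (v : ℝ) + H - x := by ring
    rw [e3]
    exact h4
  · intro x hx hd
    have hxr : (v : ℝ) ≤ x := by exact_mod_cast hx
    have hxH : x ≤ v + H := by
      have : (x : ℝ) ≤ v + H := by nlinarith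
      exact_mod_cast this
    have hb := sum_ub_le h S (by omega : x ≤ E) (i := v)
    have hu0 : 0 ≤ ∑ k ∈ Ico v x, u k := le_trans (sum_ub_nonneg h S (by omega)) hb
    refine key _ (sum_ub_nonneg h S (by omega)) (le_trans hb ?_) mR (by linarith) (le_refl _)
    have h4 := sum_sub_le h (by omega : v + H ≤ E) (Ico v x)
      (Finset.Ico_subset_Ico_right hxH : Ico v x ⊆ Ico v (v + H))
    rw [Nat.card_Ico, Nat.cast_sub hx] at h4
    push_cast at h4
    have e3 : (v : ℝ) + H - v = H := by ring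
    rw [e3] at h4
    have h5 : ((x : ℝ) - v) * C * ∑ k ∈ Ico v (v + H), u k ≤
        H / 9 * ∑ k ∈ Ico v (v + H), u k := mul_le_mul_of_nonneg_right (by linarith) hZp.le
    have h6 : (∑ k ∈ Ico v x, u k) * H ≤ (∑ k ∈ Ico v (v + H), u k) / 9 * H := by nlinarith
    have h7 := le_of_mul_le_mul_right h6 (by linarith : (0 : ℝ) < H)
    linarith

/-- (6), mirror image: the larger part of the mass goes to the left. `Z` is the interval
`[v - H, v)`. -/
theorem raiseL {E : ℕ} {u : ℕ → ℝ} {C : ℝ} (h : Reg E u C) (hC : 1 ≤ C) (S : Finset ℕ)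
    {v H gl : ℕ} (hH : 1 ≤ H) (h2 : gl + H ≤ v) (h3 : v ≤ E) {mL mR : ℝ} (hm : 0 ≤ mR)
    (hle : mR ≤ mL) (hmL : 1 / 2 ≤ mL)
    (hs : 2 * C * ((sat S (v - H) v).card : ℝ) < H) :
    (∀ x, v ≤ x → x ≤ E → 9 * C * ((x : ℝ) - v) ≤ H → 3 / 16 * ∑ k ∈ Ico (v - H) v, u k ≤
      mL * ∑ k ∈ Ico gl v, ub S u k - mR * ∑ k ∈ Ico v x, ub S u k) ∧
    (∀ x, x ≤ v → 9 * C * ((v : ℝ) - x) ≤ H → 3 / 16 * ∑ k ∈ Ico (v - H) v, u k ≤
      mL * ∑ k ∈ Ico gl v, ub S u k - mL * ∑ k ∈ Ico x v, ub S u k) := by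
  have hHr : (1 : ℝ) ≤ H := by exact_mod_cast hH
  have hvH : v - H + H = v := by omega
  have hcast : ((v - H : ℕ) : ℝ) = (v : ℝ) - H := by
    rw [Nat.cast_sub (by omega)]
  have hZp := sum_u_pos h (by omega : v - H < v) h3
  have hZ2 : (∑ k ∈ Ico (v - H) v, u k) / 2 ≤ ∑ k ∈ Ico (v - H) v, ub S u k := by
    refine half h S (by omega) (by omega) ?_
    rw [hcast]
    linarith
  have e1 : ∑ k ∈ Ico gl (v - H), ub S u k + ∑ k ∈ Ico (v - H) v, ub S u k =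
      ∑ k ∈ Ico gl v, ub S u k := Finset.sum_Ico_consecutive _ (by omega) (by omega)
  have e2 : 0 ≤ ∑ k ∈ Ico gl (v - H), ub S u k := sum_ub_nonneg h S (by omega)
  have hRR : (∑ k ∈ Ico (v - H) v, u k) / 2 ≤ ∑ k ∈ Ico gl v, ub S u k := by linarith
  have hq : (∑ k ∈ Ico (v - H) v, u k) / 4 ≤ mL * ∑ k ∈ Ico gl v, ub S u k := by
    have : (1 / 2 : ℝ) * ((∑ k ∈ Ico (v - H) v, u k) / 2) ≤ mL * ∑ k ∈ Ico gl v, ub S u k :=
      mul_le_mul hmL hRR (by linarith) (by linarith)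
    linarith
  have key : ∀ w : ℝ, 0 ≤ w → w ≤ (∑ k ∈ Ico (v - H) v, u k) / 8 → ∀ m : ℝ, 0 ≤ m → m ≤ mL →
      3 / 16 * ∑ k ∈ Ico (v - H) v, u k ≤ mL * ∑ k ∈ Ico gl v, ub S u k - m * w := by
    intro w hw0 hw m hm0 hmm
    have a1 : m * w ≤ mL * w := mul_le_mul_of_nonneg_right hmm hw0
    have a2 : mL * w ≤ mL * ((∑ k ∈ Ico gl v, ub S u k) / 4) :=
      mul_le_mul_of_nonneg_left (by linarith) (by linarith)
    nlinarith
  constructor
  · intro x hx hxE hd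
    have hxr : (v : ℝ) ≤ x := by exact_mod_cast hx
    have hb := sum_ub_le h S hxE (i := v)
    have hu0 : 0 ≤ ∑ k ∈ Ico v x, u k := le_trans (sum_ub_nonneg h S hxE) hb
    refine key _ (sum_ub_nonneg h S hxE) (le_trans hb ?_) mR hm hle
    refine shortAlg C H ((x : ℝ) - v) _ _ (by linarith) (by linarith) hZp hu0 ?_ hd
    have h4 := sum_sub_le h hxE (Ico v x)
      (Finset.Ico_subset_Ico_left (by omega) : Ico v x ⊆ Ico (v - H) x)
    rw [Nat.card_Ico, Nat.cast_sub hx,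
      ← Finset.sum_Ico_consecutive u (by omega : v - H ≤ v) hx, hcast] at h4
    have e3 : (x : ℝ) - v + H = (x : ℝ) - (v - H) := by ring
    rw [e3, add_comm (∑ k ∈ Ico v x, u k)]
    exact h4
  · intro x hx hd
    have hxr : (x : ℝ) ≤ v := by exact_mod_cast hx
    have hxH : v - H ≤ x := by
      have : (v : ℝ) ≤ x + H := by nlinarith
      have : v ≤ x + H := by exact_mod_cast this
      omega
    have hb := sum_ub_le h S h3 (i := x)
    have hu0 : 0 ≤ ∑ k ∈ Ico x v, u k := le_trans (sum_ub_nonneg h S h3) hb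
    refine key _ (sum_ub_nonneg h S h3) (le_trans hb ?_) mL (by linarith) (le_refl _)
    have h4 := sum_sub_le h h3 (Ico x v)
      (Finset.Ico_subset_Ico_left hxH : Ico x v ⊆ Ico (v - H) v)
    rw [Nat.card_Ico, Nat.cast_sub hx, hcast] at h4
    have e3 : (v : ℝ) - (v - H) = H := by ring
    rw [e3] at h4
    have h5 : ((v : ℝ) - x) * C * ∑ k ∈ Ico (v - H) v, u k ≤
        H / 9 * ∑ k ∈ Ico (v - H) v, u k := mul_le_mul_of_nonneg_right (by linarith) hZp.le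
    have h6 : (∑ k ∈ Ico x v, u k) * H ≤ (∑ k ∈ Ico (v - H) v, u k) / 9 * H := by nlinarith
    have h7 := le_of_mul_le_mul_right h6 (by linarith : (0 : ℝ) < H)
    linarith

/-- Cauchy-Schwarz: `u = 1 / B`. -/
theorem cs {u B : ℕ → ℝ} {i H : ℕ} (hB : ∀ k ∈ Ico i (i + H), 0 < B k)
    (hu : ∀ k ∈ Ico i (i + H), u k * B k = 1) :
    (H : ℝ) ^ 2 ≤ (∑ k ∈ Ico i (i + H), u k) * ∑ k ∈ Ico i (i + H), B k := by
  have h0 : ∀ k ∈ Ico i (i + H), 0 ≤ u k := by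
    intro k hk
    by_contra hc
    have h1 := mul_neg_of_neg_of_pos (not_le.1 hc) (hB k hk)
    rw [hu k hk] at h1
    linarith
  have h1 := Finset.sum_sq_le_sum_mul_sum_of_sq_le_mul (Ico i (i + H)) (r := fun _ => (1 : ℝ))
    h0 (fun k hk => (hB k hk).le) (fun k hk => by rw [hu k hk]; norm_num)
  rw [Finset.sum_const, Nat.card_Ico, nsmul_eq_mul, mul_one] at h1
  have e : i + H - i = H := by omega
  rw [e] at h1
  exact h1

end Pool.Agent.Lib.MP_a4c1f4_lc.SQ0
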