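import Mathlib

/-!
# SQ0, Cnt: the counting lemma of (7)

An abstract run: prices `p i x` at the times `i`, `p (i + 1) x = p i x + s i * q i x`. If at all times
`i` of a set `D` the node `v i` belongs to a block `I`, the price of the whole block is raised with a
rate of at least `c`, and the price at `v i` is at most `P0`, then the mass of the steps in `D` is at most
`P0 / c` plus one step.
-/

set_option autoImplicit false

namespace Pool.Agent.Lib.MP_a4c1f4_lc.SQ0

open Finset

/-- Prices are sums of the raises. -/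
theorem price_sum (p q : ℕ → ℕ → ℝ) (s : ℕ → ℝ) (T : ℕ)
    (hp : ∀ i < T, ∀ x, p (i + 1) x = p i x + s i * q i x) (j : ℕ) (hj : j ≤ T) (x : ℕ) :
    p j x = p 0 x + ∑ i ∈ range j, s i * q i x := by
  induction j with
  | zero => simp
  | succ j ih =>
    rw [hp j (by omega) x, ih (by omega), Finset.sum_range_succ]
    ring

/-- The counting lemma. -/
theorem count (p q : ℕ → ℕ → ℝ) (s : ℕ → ℝ) (v : ℕ → ℕ) (T : ℕ)
    (hp : ∀ i < T, ∀ x, p (i + 1) x = p i x + s i * q i x)
    (hp0 : ∀ x, 0 ≤ p 0 x) (hs : ∀ i < T, 0 ≤ s i) (hq : ∀ i < T, ∀ x, 0 ≤ q i x)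
    (I : Set ℕ) (D : Finset ℕ) (hD : ∀ i ∈ D, i < T) (c P0 eps : ℝ) (hP0 : 0 ≤ P0)
    (hc : 0 ≤ c) (he0 : 0 ≤ eps)
    (h1 : ∀ i ∈ D, v i ∈ I) (h2 : ∀ i ∈ D, ∀ x ∈ I, c ≤ q i x) (h3 : ∀ i ∈ D, p i (v i) ≤ P0)
    (h4 : ∀ i ∈ D, s i ≤ eps) :
    c * ∑ i ∈ D, s i ≤ P0 + c * eps := by
  by_cases hne : D.Nonempty
  · have hj := D.max'_mem hne
    have hlast := h3 _ hj
    rw [price_sum p q s T hp _ (hD _ hj).le] at hlast
    have hsub : ∑ i ∈ D.erase (D.max' hne), s i * c ≤
        ∑ i ∈ range (D.max' hne), s i * q i (v (D.max' hne)) := by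
      calc ∑ i ∈ D.erase (D.max' hne), s i * c
          ≤ ∑ i ∈ D.erase (D.max' hne), s i * q i (v (D.max' hne)) := by
            refine Finset.sum_le_sum fun i hi => ?_
            have hi' := Finset.mem_of_mem_erase hi
            exact mul_le_mul_of_nonneg_left (h2 i hi' _ (h1 _ hj)) (hs i (hD i hi'))
        _ ≤ ∑ i ∈ range (D.max' hne), s i * q i (v (D.max' hne)) := by
            refine Finset.sum_le_sum_of_subset_of_nonneg ?_ ?_
            · intro i hi
              rw [Finset.mem_range]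
              have hi' := Finset.mem_of_mem_erase hi
              exact lt_of_le_of_ne (D.le_max' i hi') (Finset.ne_of_mem_erase hi)
            · intro i hi _
              have hi2 : i < T := lt_trans (Finset.mem_range.1 hi) (hD _ hj)
              exact mul_nonneg (hs i hi2) (hq i hi2 _)
    have e1 : ∑ i ∈ D, s i = ∑ i ∈ D.erase (D.max' hne), s i + s (D.max' hne) :=
      (Finset.sum_erase_add D s hj).symm
    rw [← Finset.sum_mul] at hsub
    have h5 := h4 _ hj
    have h6 := hp0 (v (D.max' hne))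
    have h7 : c * s (D.max' hne) ≤ c * eps := mul_le_mul_of_nonneg_left h5 hc
    rw [e1]
    nlinarith
  · rw [Finset.not_nonempty_iff_eq_empty.1 hne, Finset.sum_empty, mul_zero]
    have := mul_nonneg hc he0
    linarith

end Pool.Agent.Lib.MP_a4c1f4_lc.SQ0
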