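import Mathlib

set_option autoImplicit false

/-!
Greedy covering on the edges `0, ..., E - 1` of a path, the thickening `TT E X` and the bound
`#(TT E X) ≤ 8 #X` (note 5105, point (2), and the cover of point (4)).
-/

namespace Pool.Agent.MP_a4c1f4_lc.SQ0

open Finset

/-- greedy cover by intervals with right end `k` -/
theorem grL (w : ℕ → ℝ) (hw : ∀ k, 0 ≤ w k) (Y : Finset ℕ)
    (h : ∀ k ∈ Y, ∃ i, i ≤ k ∧ ((k : ℝ) + 1 - i) ≤ ∑ j ∈ Icc i k, w j) :
    ∀ M : ℕ, ((Y ∩ range M).card : ℝ) ≤ ∑ j ∈ range M, w j := by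
  intro M
  induction M using Nat.strong_induction_on with
  | _ M ih =>
    rcases Nat.eq_zero_or_pos M with h0 | h0
    · subst h0
      simp
    obtain ⟨m, rfl⟩ : ∃ m, M = m + 1 := ⟨M - 1, by omega⟩
    by_cases hm : m ∈ Y
    · obtain ⟨i, hi, hs⟩ := h m hm
      have h1 := ih i (by omega)
      have h2 : ∑ j ∈ range (m + 1), w j = ∑ j ∈ range i, w j + ∑ j ∈ Icc i m, w j := by
        rw [← Finset.sum_union]
        · apply Finset.sum_congr _ (fun _ _ => rfl)
          ext x
          simp only [mem_range, mem_union, mem_Icc]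
          omega
        · rw [Finset.disjoint_left]
          intro x hx hx'
          simp only [mem_range, mem_Icc] at hx hx'
          omega
      have h3 : (Y ∩ range (m + 1)).card ≤ (Y ∩ range i).card + (m + 1 - i) := by
        have h4 : Y ∩ range (m + 1) ⊆ (Y ∩ range i) ∪ Icc i m := by
          intro x hx
          simp only [mem_inter, mem_range, mem_union, mem_Icc] at hx ⊢
          rcases Nat.lt_or_ge x i with h5 | h5
          · exact Or.inl ⟨hx.1, h5⟩
          · exact Or.inr ⟨h5, by omega⟩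
        calc (Y ∩ range (m + 1)).card ≤ ((Y ∩ range i) ∪ Icc i m).card := card_le_card h4
          _ ≤ (Y ∩ range i).card + (Icc i m).card := card_union_le _ _
          _ = _ := by rw [Nat.card_Icc]
      have h6 : ((Y ∩ range (m + 1)).card : ℝ) ≤ (Y ∩ range i).card + ((m : ℝ) + 1 - i) := by
        have h7 : ((m + 1 - i : ℕ) : ℝ) = (m : ℝ) + 1 - i := by
          rw [Nat.cast_sub (by omega)]
          push_cast
          ring
        rw [← h7]
        exact_mod_cast h3
      rw [h2]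
      linarith
    · have h1 := ih m (by omega)
      have h2 : Y ∩ range (m + 1) = Y ∩ range m := by
        ext x
        simp only [mem_inter, mem_range]
        constructor
        · rintro ⟨h3, h4⟩
          refine ⟨h3, ?_⟩
          rcases Nat.lt_or_ge x m with h5 | h5
          · exact h5
          · exact absurd (by rwa [show x = m by omega] at h3) hm
        · rintro ⟨h3, h4⟩
          exact ⟨h3, by omega⟩
      rw [h2, sum_range_succ]
      have := hw m
      linarith

/-- greedy cover by intervals with left end `k` -/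
theorem grR (w : ℕ → ℝ) (hw : ∀ k, 0 ≤ w k) (Y : Finset ℕ) (E : ℕ)
    (h : ∀ k ∈ Y, ∃ j, k ≤ j ∧ j < E ∧ ((j : ℝ) + 1 - k) ≤ ∑ x ∈ Icc k j, w x) :
    ∀ M : ℕ, ((Y ∩ Ico M E).card : ℝ) ≤ ∑ j ∈ Ico M E, w j := by
  have main : ∀ n M : ℕ, E - M = n → ((Y ∩ Ico M E).card : ℝ) ≤ ∑ j ∈ Ico M E, w j := by
    intro n
    induction n using Nat.strong_induction_on with
    | _ n ih =>
      intro M hM
      rcases Nat.lt_or_ge M E with h0 | h0
      swap
      · rw [Ico_eq_empty_of_le h0]
        simp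
      by_cases hm : M ∈ Y
      · obtain ⟨j, hj, hjE, hs⟩ := h M hm
        have h1 := ih (E - (j + 1)) (by omega) (j + 1) rfl
        have h2 : ∑ x ∈ Ico M E, w x = ∑ x ∈ Icc M j, w x + ∑ x ∈ Ico (j + 1) E, w x := by
          rw [← Finset.sum_union]
          · apply Finset.sum_congr _ (fun _ _ => rfl)
            ext x
            simp only [mem_Ico, mem_union, mem_Icc]
            omega
          · rw [Finset.disjoint_left]
            intro x hx hx'
            simp only [mem_Ico, mem_Icc] at hx hx'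
            omega
        have h3 : (Y ∩ Ico M E).card ≤ (j + 1 - M) + (Y ∩ Ico (j + 1) E).card := by
          have h4 : Y ∩ Ico M E ⊆ Icc M j ∪ (Y ∩ Ico (j + 1) E) := by
            intro x hx
            simp only [mem_inter, mem_Ico, mem_union, mem_Icc] at hx ⊢
            rcases Nat.lt_or_ge j x with h5 | h5
            · exact Or.inr ⟨hx.1, by omega, hx.2.2⟩
            · exact Or.inl ⟨hx.2.1, h5⟩
          calc (Y ∩ Ico M E).card ≤ (Icc M j ∪ (Y ∩ Ico (j + 1) E)).card := card_le_card h4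
            _ ≤ (Icc M j).card + (Y ∩ Ico (j + 1) E).card := card_union_le _ _
            _ = _ := by rw [Nat.card_Icc]
        have h6 : ((Y ∩ Ico M E).card : ℝ) ≤ ((j : ℝ) + 1 - M) + (Y ∩ Ico (j + 1) E).card := by
          have h7 : ((j + 1 - M : ℕ) : ℝ) = (j : ℝ) + 1 - M := by
            rw [Nat.cast_sub (by omega)]
            push_cast
            ring
          rw [← h7]
          exact_mod_cast h3
        rw [h2]
        linarith
      · have h1 := ih (E - (M + 1)) (by omega) (M + 1) rfl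
        have h2 : Y ∩ Ico M E = Y ∩ Ico (M + 1) E := by
          ext x
          simp only [mem_inter, mem_Ico]
          constructor
          · rintro ⟨h3, h4, h5⟩
            refine ⟨h3, ?_, h5⟩
            rcases Nat.lt_or_ge M x with h6 | h6
            · exact h6
            · exact absurd (by rwa [show x = M by omega] at h3) hm
          · rintro ⟨h3, h4, h5⟩
            exact ⟨h3, by omega, h5⟩
        have h3 : ∑ x ∈ Ico M E, w x = w M + ∑ x ∈ Ico (M + 1) E, w x := by
          rw [Finset.sum_eq_sum_Ico_succ_bot h0]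
        rw [h2, h3]
        have := hw M
        linarith
  intro M
  exact main _ M rfl

/-- two-sided greedy cover -/
theorem gr2 (w : ℕ → ℝ) (hw : ∀ k, 0 ≤ w k) (Y : Finset ℕ) (E : ℕ) (hY : ∀ k ∈ Y, k < E)
    (h : ∀ k ∈ Y, (∃ i, i ≤ k ∧ ((k : ℝ) + 1 - i) ≤ ∑ x ∈ Icc i k, w x) ∨
      ∃ j, k ≤ j ∧ j < E ∧ ((j : ℝ) + 1 - k) ≤ ∑ x ∈ Icc k j, w x) :
    (Y.card : ℝ) ≤ 2 * ∑ j ∈ range E, w j := by
  classical
  set YL : Finset ℕ := Y.filter (fun k : ℕ => ∃ i : ℕ, i ≤ k ∧
    ((k : ℝ) + 1 - i) ≤ ∑ x ∈ Icc i k, w x) with hYL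
  set YR : Finset ℕ := Y.filter (fun k : ℕ => ∃ j : ℕ, k ≤ j ∧ j < E ∧
    ((j : ℝ) + 1 - k) ≤ ∑ x ∈ Icc k j, w x) with hYR
  have h1 := grL w hw YL (fun k hk => (mem_filter.mp hk).2) E
  have h2 := grR w hw YR E (fun k hk => (mem_filter.mp hk).2) 0
  have h3 : YL ∩ range E = YL := by
    ext x
    simp only [mem_inter, mem_range, and_iff_left_iff_imp]
    intro hx
    exact hY x (mem_filter.mp hx).1
  have h4 : YR ∩ Ico 0 E = YR := by
    ext x
    simp only [mem_inter, mem_Ico, and_iff_left_iff_imp]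
    intro hx
    exact ⟨Nat.zero_le _, hY x (mem_filter.mp hx).1⟩
  rw [h3] at h1
  rw [h4, ← Finset.range_eq_Ico] at h2
  have h5 : Y ⊆ YL ∪ YR := by
    intro k hk
    rcases h k hk with h6 | h6
    · exact mem_union_left _ (mem_filter.mpr ⟨hk, h6⟩)
    · exact mem_union_right _ (mem_filter.mpr ⟨hk, h6⟩)
  have h6 : (Y.card : ℝ) ≤ YL.card + YR.card := by
    exact_mod_cast (card_le_card h5).trans (card_union_le _ _)
  linarith

open Classical in
/-- the thickening of a set of edges: `k` with an interval ending or starting at `k` which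
contains at least one quarter of edges of `X` -/
noncomputable def TT (E : ℕ) (X : Finset ℕ) : Finset ℕ :=
  (range E).filter (fun k => (∃ i, i ≤ k ∧ k + 1 - i ≤ 4 * (X ∩ Icc i k).card) ∨
    ∃ j, k ≤ j ∧ j < E ∧ j + 1 - k ≤ 4 * (X ∩ Icc k j).card)

theorem mem_TT {E : ℕ} {X : Finset ℕ} {k : ℕ} : k ∈ TT E X ↔
    k < E ∧ ((∃ i, i ≤ k ∧ k + 1 - i ≤ 4 * (X ∩ Icc i k).card) ∨
    ∃ j, k ≤ j ∧ j < E ∧ j + 1 - k ≤ 4 * (X ∩ Icc k j).card) := by
  simp only [TT, mem_filter, mem_range]

theorem TT_mono (E : ℕ) {X Y : Finset ℕ} (h : X ⊆ Y) : TT E X ⊆ TT E Y := by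
  intro k hk
  rw [mem_TT] at hk ⊢
  refine ⟨hk.1, ?_⟩
  rcases hk.2 with ⟨i, hi, h1⟩ | ⟨j, hj, hjE, h1⟩
  · exact Or.inl ⟨i, hi, h1.trans (Nat.mul_le_mul_left 4 (card_le_card
      (inter_subset_inter h (Subset.refl _))))⟩
  · exact Or.inr ⟨j, hj, hjE, h1.trans (Nat.mul_le_mul_left 4 (card_le_card
      (inter_subset_inter h (Subset.refl _))))⟩

theorem subset_TT (E : ℕ) (X : Finset ℕ) (hX : X ⊆ range E) : X ⊆ TT E X := by
  intro k hk
  rw [mem_TT]
  refine ⟨mem_range.mp (hX hk), Or.inl ⟨k, le_refl _, ?_⟩⟩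
  have h1 : X ∩ Icc k k = {k} := by
    ext x
    simp only [Icc_self, mem_inter, mem_singleton, and_iff_right_iff_imp]
    rintro rfl
    exact hk
  rw [h1]
  simp

theorem TT_subset (E : ℕ) (X : Finset ℕ) : TT E X ⊆ range E := fun _ hk =>
  mem_range.mpr (mem_TT.mp hk).1

theorem TT_empty (E : ℕ) : TT E ∅ = ∅ := by
  ext k
  rw [mem_TT]
  simp only [empty_inter, card_empty, mul_zero, Nat.le_zero, notMem_empty, iff_false]
  rintro ⟨h0, ⟨i, hi, h1⟩ | ⟨j, hj, hjE, h1⟩⟩ <;> omega

theorem card_TT (E : ℕ) (X : Finset ℕ) : (TT E X).card ≤ 8 * X.card := by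
  classical
  have key : ∀ i k : ℕ, ∑ x ∈ Icc i k, (if x ∈ X then (4 : ℝ) else 0) =
      4 * ((X ∩ Icc i k).card : ℝ) := by
    intro i k
    rw [← sum_filter, sum_const, nsmul_eq_mul]
    have : (Icc i k).filter (fun x => x ∈ X) = X ∩ Icc i k := by
      ext x
      simp only [mem_filter, mem_inter]
      exact and_comm
    rw [this]
    ring
  have h1 := gr2 (fun x => if x ∈ X then (4 : ℝ) else 0)
    (fun k => by split_ifs <;> norm_num) (TT E X) E
    (fun k hk => (mem_TT.mp hk).1) (by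
      intro k hk
      rcases (mem_TT.mp hk).2 with ⟨i, hi, h2⟩ | ⟨j, hj, hjE, h2⟩
      · refine Or.inl ⟨i, hi, ?_⟩
        rw [key]
        have h3 : ((k + 1 - i : ℕ) : ℝ) ≤ 4 * ((X ∩ Icc i k).card : ℝ) := by exact_mod_cast h2
        rw [Nat.cast_sub (by omega)] at h3
        push_cast at h3
        exact h3
      · refine Or.inr ⟨j, hj, hjE, ?_⟩
        rw [key]
        have h3 : ((j + 1 - k : ℕ) : ℝ) ≤ 4 * ((X ∩ Icc k j).card : ℝ) := by exact_mod_cast h2
        rw [Nat.cast_sub (by omega)] at h3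
        push_cast at h3
        exact h3)
  have h2 : ∑ j ∈ range E, (if j ∈ X then (4 : ℝ) else 0) ≤ 4 * X.card := by
    rw [← sum_filter, sum_const, nsmul_eq_mul]
    have : ((range E).filter (fun x => x ∈ X)).card ≤ X.card :=
      card_le_card (fun x hx => (mem_filter.mp hx).2)
    have h3 : (((range E).filter (fun x => x ∈ X)).card : ℝ) ≤ X.card := by exact_mod_cast this
    linarith
  have h3 : ((TT E X).card : ℝ) ≤ 8 * X.card := by linarith
  exact_mod_cast h3

/-- outside the thickening, every interval contains few edges of `X` -/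
theorem not_TT {E : ℕ} {X : Finset ℕ} {k a b : ℕ} (hk : k ∉ TT E X) (ha : a ≤ k) (hb : k ≤ b)
    (hbE : b < E) : 4 * (X ∩ Icc a b).card + 1 ≤ b + 1 - a := by
  rw [mem_TT] at hk
  push Not at hk
  obtain ⟨h1, h2⟩ := hk (by omega)
  have h3 := h1 a ha
  have h4 := h2 b hb hbE
  have h5 : X ∩ Icc a b ⊆ (X ∩ Icc a k) ∪ (X ∩ Icc k b) := by
    intro x hx
    simp only [mem_inter, mem_Icc, mem_union] at hx ⊢
    rcases Nat.lt_or_ge x k with h6 | h6
    · exact Or.inl ⟨hx.1, hx.2.1, by omega⟩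
    · exact Or.inr ⟨hx.1, h6, hx.2.2⟩
  have h6 := (card_le_card h5).trans (card_union_le _ _)
  omega

end Pool.Agent.MP_a4c1f4_lc.SQ0
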