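import Mathlib

/-!
# One edge of the price flow on the line (note 5105, points (1) and (3))

`g` is the price gradient of the edge, `f` the flow, `B` the regularized capacity, `F` the maximum of
`b0` and the past values of `|f|`, `d t` the change of the flow in the step `t`, `sat t`: the edge is
saturated in the direction of `d t` in the step `t`.
-/

set_option autoImplicit false

namespace Pool.Agent.MP_a4c1f4_lc.SQ0

open Finset

/-- One step of one edge: `g` becomes `g'`, the flow changes by `d`; saturated or not. -/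
def EUpd (sat : Prop) (g g' B d : ℝ) : Prop :=
  (sat → g' = g ∧ ((0 ≤ d ∧ 1 ≤ g) ∨ (d ≤ 0 ∧ g ≤ -1))) ∧
    (¬ sat → g' = g + d / B ∧ (0 < d → g < 1) ∧ (d < 0 → -1 < g))

/-- The gradient stays in `[-(1 + th), 1 + th]`. -/
theorem EUpd.abs_le {sat : Prop} {g g' B d th : ℝ} (h : EUpd sat g g' B d) (hB : 0 < B)
    (hd : |d| ≤ th * B) (hg : |g| ≤ 1 + th) : |g'| ≤ 1 + th := by
  by_cases hs : sat
  · rw [(h.1 hs).1]
    exact hg
  · obtain ⟨h1, h2, h3⟩ := h.2 hs
    have h4 : |d / B| ≤ th := by
      rw [abs_div, abs_of_pos hB, div_le_iff₀ hB]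
      exact hd
    rw [_root_.abs_le] at hg h4 ⊢
    rw [h1]
    rcases lt_trichotomy d 0 with h5 | h5 | h5
    · have h6 := h3 h5
      have h7 : d / B < 0 := div_neg_of_neg_of_pos h5 hB
      constructor <;> linarith [hg.2, h4.1]
    · rw [h5, zero_div, add_zero]
      exact hg
    · have h6 := h2 h5
      have h7 : 0 < d / B := div_pos h5 hB
      constructor <;> linarith [hg.1, h4.2]

/-- (1) One step: the saturated current is paid by the decrease of `|B g - f|` and the growth of `B`. -/
theorem EUpd.dist {sat : Prop} [Decidable sat] {g g' f f' B B' d th : ℝ} (h : EUpd sat g g' B d)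
    (hB : 0 < B) (hBB : B ≤ B') (hf : |f| ≤ B) (hf' : |f'| ≤ B') (hff : f' = f + d)
    (hg' : |g'| ≤ 1 + th) :
    (if sat then |d| else 0) + |B' * g' - f'| ≤ |B * g - f| + (1 + th) * (B' - B) := by
  have hb : 0 ≤ B' - B := by linarith
  by_cases hs : sat
  · rw [if_pos hs]
    obtain ⟨h1, h2⟩ := h.1 hs
    rw [h1] at hg' ⊢
    rw [_root_.abs_le] at hf hf'
    rcases h2 with ⟨h3, h4⟩ | ⟨h3, h4⟩
    · have h5 : 0 ≤ B * g - f := by nlinarith [hf.2]
      have h6 : 0 ≤ B' * g - f' := by nlinarith [hf'.2]
      rw [abs_of_nonneg h3, abs_of_nonneg h5, abs_of_nonneg h6, hff]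
      have h7 : g ≤ 1 + th := (le_abs_self g).trans hg'
      nlinarith
    · have h5 : B * g - f ≤ 0 := by nlinarith [hf.1]
      have h6 : B' * g - f' ≤ 0 := by nlinarith [hf'.1]
      rw [abs_of_nonpos h3, abs_of_nonpos h5, abs_of_nonpos h6, hff]
      have h7 : -g ≤ 1 + th := (neg_le_abs g).trans hg'
      nlinarith
  · rw [if_neg hs, zero_add]
    obtain ⟨h1, -, -⟩ := h.2 hs
    have h2 : B' * g' - f' = (B * g - f) + (B' - B) * g' := by
      have h3 : B * g' = B * g + d := by
        rw [h1]
        field_simp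
      rw [hff]
      linarith
    rw [h2]
    refine (abs_add_le _ _).trans ?_
    rw [abs_mul, abs_of_nonneg hb]
    nlinarith

/-- (1) One step: the energy. -/
theorem EUpd.energy {sat : Prop} [Decidable sat] {g g' B B' d th : ℝ} (h : EUpd sat g g' B d)
    (hB : 0 < B) (hBB : B ≤ B') (hg : |g| ≤ 1 + th) :
    g * d ≤ B' * g' ^ 2 / 2 - B * g ^ 2 / 2 + (1 + th) * (if sat then |d| else 0) := by
  by_cases hs : sat
  · rw [if_pos hs, (h.1 hs).1]
    have h1 : g * d ≤ (1 + th) * |d| := by
      refine (le_abs_self _).trans ?_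
      rw [abs_mul]
      exact mul_le_mul_of_nonneg_right hg (abs_nonneg d)
    have h2 : 0 ≤ (B' - B) * g ^ 2 := mul_nonneg (by linarith) (sq_nonneg g)
    nlinarith
  · rw [if_neg hs, mul_zero, add_zero]
    obtain ⟨h1, -, -⟩ := h.2 hs
    have h3 : d = B * (g' - g) := by
      rw [h1]
      field_simp
      ring
    have h4 : 0 ≤ B * (g' - g) ^ 2 := mul_nonneg hB.le (sq_nonneg _)
    have h5 : 0 ≤ (B' - B) * g' ^ 2 := mul_nonneg (by linarith) (sq_nonneg _)
    rw [h3]
    nlinarith

/-- The history of one edge. -/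
structure EHist (g f B d : ℕ → ℝ) (sat : ℕ → Prop) (th : ℝ) (T : ℕ) : Prop where
  g0 : g 0 = 0
  f0 : f 0 = 0
  th0 : 0 ≤ th
  Bpos : ∀ t, t ≤ T → 0 < B t
  Bmono : ∀ t, t < T → B t ≤ B (t + 1)
  fB : ∀ t, t ≤ T → |f t| ≤ B t
  fstep : ∀ t, t < T → f (t + 1) = f t + d t
  dth : ∀ t, t < T → |d t| ≤ th * B t
  upd : ∀ t, t < T → EUpd (sat t) (g t) (g (t + 1)) (B t) (d t)

namespace EHist

variable {g f B d : ℕ → ℝ} {sat : ℕ → Prop} {th : ℝ} {T : ℕ}

theorem abs_le (h : EHist g f B d sat th T) : ∀ t, t ≤ T → |g t| ≤ 1 + th := by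
  intro t
  induction t with
  | zero =>
    intro _
    rw [h.g0, abs_zero]
    linarith [h.th0]
  | succ t ih =>
    intro ht
    exact (h.upd t (by omega)).abs_le (h.Bpos t (by omega)) (h.dth t (by omega)) (ih (by omega))

theorem B_le (h : EHist g f B d sat th T) : ∀ t, t ≤ T → B 0 ≤ B t := by
  intro t
  induction t with
  | zero => exact fun _ => le_rfl
  | succ t ih => exact fun ht => (ih (by omega)).trans (h.Bmono t (by omega))

open Classical in
/-- (1) The total saturated current of an edge. -/
theorem sat_sum (h : EHist g f B d sat th T) :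
    ∑ t ∈ range T, (if sat t then |d t| else 0) ≤ (1 + th) * B T := by
  have key : ∀ t, t ≤ T → ∑ i ∈ range t, (if sat i then |d i| else 0) + |B t * g t - f t| ≤
      (1 + th) * (B t - B 0) := by
    intro t
    induction t with
    | zero =>
      intro _
      rw [h.g0, h.f0]
      simp
    | succ t ih =>
      intro ht
      rw [sum_range_succ]
      have h1 := (h.upd t (by omega)).dist (h.Bpos t (by omega)) (h.Bmono t (by omega))
        (h.fB t (by omega)) (h.fB (t + 1) ht) (h.fstep t (by omega)) (h.abs_le (t + 1) ht)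
      have h2 := ih (by omega)
      linarith
  have h1 := key T le_rfl
  have h2 := abs_nonneg (B T * g T - f T)
  have h3 := h.Bpos 0 (Nat.zero_le _)
  have h4 := h.th0
  nlinarith

open Classical in
/-- (1) The total energy of an edge. -/
theorem energy_sum (h : EHist g f B d sat th T) :
    ∑ t ∈ range T, g t * d t ≤ 3 / 2 * (1 + th) ^ 2 * B T := by
  have key : ∀ t, t ≤ T → ∑ i ∈ range t, g i * d i ≤
      B t * g t ^ 2 / 2 + (1 + th) * ∑ i ∈ range t, (if sat i then |d i| else 0) := by
    intro t
    induction t with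
    | zero =>
      intro _
      rw [h.g0]
      simp
    | succ t ih =>
      intro ht
      rw [sum_range_succ, sum_range_succ, mul_add]
      have h1 := (h.upd t (by omega)).energy (h.Bpos t (by omega)) (h.Bmono t (by omega))
        (h.abs_le t (by omega))
      have h2 := ih (by omega)
      linarith
  have h1 := key T le_rfl
  have h2 := h.sat_sum
  have h3 := h.abs_le T le_rfl
  have h4 : g T ^ 2 ≤ (1 + th) ^ 2 := by
    rw [← sq_abs]
    exact pow_le_pow_left₀ (abs_nonneg _) h3 2
  have h5 := h.Bpos T le_rfl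
  have h6 := mul_le_mul_of_nonneg_left h4 h5.le
  have h7 := mul_le_mul_of_nonneg_left h2 (by linarith [h.th0] : (0 : ℝ) ≤ 1 + th)
  nlinarith

end EHist

/-- (3) One step of the synchronization `|g - f / F|`. -/
theorem EUpd.sync {sat : Prop} {g g' f f' F F' d th : ℝ} (h : EUpd sat g g' F d)
    (hF : 0 < F) (hf : |f| ≤ F) (hFF : F' = max F |f'|) (hff : f' = f + d)
    (hg' : |g'| ≤ 1 + th) (hth : 0 ≤ th) :
    |g' - f' / F'| ≤ th ∨
      (|g' - f' / F'| + Real.log (F' / F) ≤ |g - f / F|) := by
  have hF' : F ≤ F' := by rw [hFF]; exact le_max_left _ _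
  have hF'0 : 0 < F' := lt_of_lt_of_le hF hF'
  have hlog : Real.log (F' / F) ≤ F' / F - 1 := Real.log_le_sub_one_of_pos (div_pos hF'0 hF)
  rw [_root_.abs_le] at hg'
  rcases le_or_gt |f'| F with hc | hc
  · -- the maximum does not change
    have hE : F' = F := by rw [hFF, max_eq_left hc]
    have hlog0 : Real.log (F' / F) = 0 := by rw [hE, div_self hF.ne', Real.log_one]
    right
    rw [hlog0, add_zero, hE]
    by_cases hs : sat
    · obtain ⟨h1, h2⟩ := h.1 hs
      rw [h1]
      rw [_root_.abs_le] at hf hc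
      have e1 : f / F ≤ 1 := (div_le_one hF).2 hf.2
      have e2 : f' / F ≤ 1 := (div_le_one hF).2 hc.2
      have e3 : -1 ≤ f / F := by rw [le_div_iff₀ hF]; linarith [hf.1]
      have e4 : -1 ≤ f' / F := by rw [le_div_iff₀ hF]; linarith [hc.1]
      have e5 : f' / F = f / F + d / F := by rw [hff, add_div]
      rcases h2 with ⟨h3, h4⟩ | ⟨h3, h4⟩
      · have e6 : 0 ≤ d / F := div_nonneg h3 hF.le
        rw [abs_of_nonneg (by linarith : 0 ≤ g - f' / F), abs_of_nonneg (by linarith : 0 ≤ g - f / F)]
        linarith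
      · have e6 : d / F ≤ 0 := div_nonpos_of_nonpos_of_nonneg h3 hF.le
        rw [abs_of_nonpos (by linarith : g - f' / F ≤ 0), abs_of_nonpos (by linarith : g - f / F ≤ 0)]
        linarith
    · obtain ⟨h1, -, -⟩ := h.2 hs
      have e1 : g' - f' / F = g - f / F := by rw [h1, hff, add_div]; ring
      rw [e1]
  · -- the maximum increases
    have hE : F' = |f'| := by rw [hFF, max_eq_right hc.le]
    rcases le_or_gt 0 f' with hs0 | hs0
    · rw [abs_of_nonneg hs0] at hc hE
      have e1 : f' / F' = 1 := by rw [hE, div_self (by linarith)]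
      rw [e1]
      rcases le_or_gt (-th) (g' - 1) with h5 | h5
      · left
        rw [_root_.abs_le]
        constructor <;> linarith [hg'.2]
      · by_cases hs : sat
        · obtain ⟨h1, h2⟩ := h.1 hs
          rw [_root_.abs_le] at hf
          rcases h2 with ⟨h3, h4⟩ | ⟨h3, h4⟩
          · exfalso
            rw [h1] at h5
            linarith
          · exfalso
            have : f' ≤ F := by rw [hff]; linarith [hf.2]
            linarith
        · right
          obtain ⟨h1, -, -⟩ := h.2 hs
          have e2 : g' = g - f / F + F' / F := by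
            rw [h1, hE, hff, add_div]
            ring
          have e3 : 1 ≤ F' / F := (one_le_div hF).2 hF'
          rw [abs_of_nonpos (by linarith : g' - 1 ≤ 0), abs_of_nonpos (by linarith : g - f / F ≤ 0)]
          linarith
    · rw [abs_of_neg hs0] at hc hE
      have e1 : f' / F' = -1 := by rw [hE, div_neg, div_self (by linarith)]
      rw [e1]
      rcases le_or_gt (g' - -1) th with h5 | h5
      · left
        rw [_root_.abs_le]
        constructor <;> linarith [hg'.1]
      · by_cases hs : sat
        · obtain ⟨h1, h2⟩ := h.1 hs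
          rw [_root_.abs_le] at hf
          rcases h2 with ⟨h3, h4⟩ | ⟨h3, h4⟩
          · exfalso
            have : -F ≤ f' := by rw [hff]; linarith [hf.1]
            linarith
          · exfalso
            rw [h1] at h5
            linarith
        · right
          obtain ⟨h1, -, -⟩ := h.2 hs
          have e2 : g' = g - f / F - F' / F := by
            rw [h1, hE, hff]
            field_simp
            ring
          have e3 : 1 ≤ F' / F := (one_le_div hF).2 hF'
          rw [abs_of_nonneg (by linarith : 0 ≤ g' - -1), abs_of_nonneg (by linarith : 0 ≤ g - f / F)]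
          linarith

namespace EHist

variable {g f B d : ℕ → ℝ} {sat : ℕ → Prop} {th : ℝ} {T : ℕ}

theorem f_le_F (h : EHist g f B d sat th T) {F : ℕ → ℝ} (hF0 : 0 < F 0)
    (hFs : ∀ t, t < T → F (t + 1) = max (F t) |f (t + 1)|) : ∀ t, t ≤ T → |f t| ≤ F t := by
  intro t
  cases t with
  | zero =>
    intro _
    rw [h.f0, abs_zero]
    exact hF0.le
  | succ t =>
    intro ht
    rw [hFs t (by omega)]
    exact le_max_right _ _

theorem F_mono {F : ℕ → ℝ} (hFs : ∀ t, t < T → F (t + 1) = max (F t) |f (t + 1)|) {s : ℕ} :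
    ∀ t, s ≤ t → t ≤ T → F s ≤ F t := by
  intro t hst
  induction t, hst using Nat.le_induction with
  | base => exact fun _ => le_rfl
  | succ t _ ih =>
    intro ht
    refine (ih (by omega)).trans ?_
    rw [hFs t (by omega)]
    exact le_max_left _ _

/-- (3) Synchronization from the time `s` on. -/
theorem sync_from (h : EHist g f B d sat th T) {F : ℕ → ℝ} (hF0 : 0 < F 0)
    (hFs : ∀ t, t < T → F (t + 1) = max (F t) |f (t + 1)|) {s t₁ : ℕ} (hst : s ≤ t₁) (ht₁ : t₁ ≤ T)
    (hB : ∀ t, s ≤ t → t < t₁ → B t = F t)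
    (hs : |g s - f s / F s| ≤ th ∨ 8 * F s ≤ F t₁) : |g t₁ - f t₁ / F t₁| ≤ th := by
  have hpos : ∀ t, t ≤ T → 0 < F t := fun t ht =>
    lt_of_lt_of_le hF0 (F_mono hFs t (Nat.zero_le _) ht)
  have key : ∀ t, s ≤ t → t ≤ t₁ → |g t - f t / F t| ≤ th ∨
      (th < |g s - f s / F s| ∧
        |g t - f t / F t| + Real.log (F t / F s) ≤ |g s - f s / F s|) := by
    intro t hst
    induction t, hst using Nat.le_induction with
    | base =>
      intro _
      rcases le_or_gt |g s - f s / F s| th with h1 | h1
      · exact Or.inl h1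
      · refine Or.inr ⟨h1, ?_⟩
        rw [div_self (hpos s (by omega)).ne', Real.log_one, add_zero]
    | succ t h0 ih =>
      intro ht
      have hu := h.upd t (by omega)
      rw [hB t h0 (by omega)] at hu
      have h1 := hu.sync (hpos t (by omega)) (h.f_le_F hF0 hFs t (by omega)) (hFs t (by omega))
        (h.fstep t (by omega)) (h.abs_le (t + 1) (by omega)) h.th0
      have hlog : 0 ≤ Real.log (F (t + 1) / F t) :=
        Real.log_nonneg ((one_le_div (hpos t (by omega))).2
          (F_mono hFs (t + 1) (by omega) (by omega)))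
      rcases h1 with h1 | h1
      · exact Or.inl h1
      · rcases ih (by omega) with h2 | h2
        · left
          linarith
        · refine Or.inr ⟨h2.1, ?_⟩
          have h3 : Real.log (F (t + 1) / F s) =
              Real.log (F (t + 1) / F t) + Real.log (F t / F s) := by
            have e1 := (hpos t (by omega)).ne'
            have e2 := (hpos s (by omega)).ne'
            have e3 := (hpos (t + 1) (by omega)).ne'
            rw [← Real.log_mul (div_ne_zero e3 e1) (div_ne_zero e1 e2)]
            congr 1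
            field_simp
          rw [h3]
          linarith [h2.2]
  rcases key t₁ hst le_rfl with h1 | ⟨h1, h2⟩
  · exact h1
  · rcases hs with h3 | h3
    · exact absurd h3 (not_le.2 h1)
    · have hFs0 := hpos s (by omega)
      have h4 : Real.log 8 ≤ Real.log (F t₁ / F s) :=
        Real.log_le_log (by norm_num) ((le_div_iff₀ hFs0).2 h3)
      have h5 : (2 : ℝ) ≤ Real.log 8 := by
        have h6 : Real.log 8 = 3 * Real.log 2 := by
          rw [show (8 : ℝ) = 2 ^ 3 by norm_num, Real.log_pow]
          norm_num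
        rw [h6]
        linarith [Real.log_two_gt_d9]
      have h6 : |g s - f s / F s| ≤ 1 + th + 1 := by
        refine (abs_sub _ _).trans (add_le_add (h.abs_le s (by omega)) ?_)
        rw [abs_div, abs_of_pos hFs0, div_le_one hFs0]
        exact h.f_le_F hF0 hFs s (by omega)
      linarith [abs_nonneg (g t₁ - f t₁ / F t₁)]

/-- (3) Synchronization. -/
theorem sync (h : EHist g f B d sat th T) {F N : ℕ → ℝ} {mu : ℝ} (hF0 : 0 < F 0)
    (hFs : ∀ t, t < T → F (t + 1) = max (F t) |f (t + 1)|)
    (hB : ∀ t, t ≤ T → B t = max (F t) (N t)) (hN : ∀ t, t < T → N t ≤ N (t + 1))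
    (hjump : ∀ t, t < T → |d t| ≤ mu) {t₁ : ℕ} (ht₁ : t₁ ≤ T) (hN₁ : N t₁ ≤ mu)
    (hF₁ : 16 * mu ≤ F t₁) (hmu : 0 < mu) : |g t₁ - f t₁ / F t₁| ≤ th := by
  classical
  have hex : ∃ s, mu ≤ F s ∧ s ≤ t₁ := ⟨t₁, by linarith, le_rfl⟩
  obtain ⟨hs1, hs2⟩ := Nat.find_spec hex
  have hmin := @Nat.find_min _ _ hex
  generalize Nat.find hex = s at hs1 hs2 hmin
  have hNm : ∀ t, t ≤ t₁ → N t ≤ N t₁ := by
    intro t ht
    have h1 : ∀ t', t ≤ t' → t' ≤ t₁ → N t ≤ N t' := by
      intro t' htt
      induction t', htt using Nat.le_induction with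
      | base => exact fun _ => le_rfl
      | succ t' _ ih => exact fun h2 => (ih (by omega)).trans (hN t' (by omega))
    exact h1 t₁ ht le_rfl
  have hB' : ∀ t, s ≤ t → t < t₁ → B t = F t := by
    intro t h1 h2
    rw [hB t (by omega), max_eq_left]
    exact (hNm t h2.le).trans (hN₁.trans (hs1.trans (F_mono hFs t h1 (by omega))))
  refine h.sync_from hF0 hFs hs2 ht₁ hB' ?_
  cases s with
  | zero =>
    left
    rw [h.g0, h.f0, zero_div, sub_zero, abs_zero]
    exact h.th0
  | succ s =>
    right
    have h1 : F s < mu := by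
      by_contra hc
      exact hmin (Nat.lt_succ_self s) ⟨not_lt.1 hc, by omega⟩
    have h2 : F (s + 1) ≤ 2 * mu := by
      rw [hFs s (by omega)]
      refine max_le (by linarith) ?_
      rw [h.fstep s (by omega)]
      refine (abs_add_le _ _).trans ?_
      have h3 := h.f_le_F hF0 hFs s (by omega)
      have h4 := hjump s (by omega)
      linarith
    linarith

end EHist

end Pool.Agent.MP_a4c1f4_lc.SQ0
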