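import Pool.Agent.Lib.MP_a4c1f4_lc.SQ0.Cov

set_option autoImplicit false

/-!
Regularized capacities (note 5105): `mu b0 i = b0 * 64 ^ i`, the sets
`XX i = {F ≥ mu i} ∪ TT (XX (i + 3))` (empty for `i ≥ M`), the regularized capacity `Bc` and the
regularity (2) of `1 / Bc`.
-/

namespace Pool.Agent.MP_a4c1f4_lc.SQ0

open Finset

/-- the scales -/
noncomputable def mu (b0 : ℝ) (i : ℕ) : ℝ := b0 * 64 ^ i

/-- `X_i`; the parameter `M` is a bound for the scales in use (`F k < mu M`) -/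
noncomputable def XX (b0 : ℝ) (E M : ℕ) (F : ℕ → ℝ) (i : ℕ) : Finset ℕ :=
  if _h : M ≤ i then ∅
  else (range E).filter (fun k => mu b0 i ≤ F k) ∪ TT E (XX b0 E M F (i + 3))
termination_by M - i
decreasing_by omega

/-- `N_k` -/
noncomputable def Nc (b0 : ℝ) (E M : ℕ) (F : ℕ → ℝ) (k : ℕ) : ℝ :=
  (range (M + 1)).sup' nonempty_range_add_one
    (fun i => if k ∈ TT E (XX b0 E M F (i + 3)) then mu b0 i else (0 : ℝ))

/-- the regularized capacity `B_k = max (F_k, N_k)` -/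
noncomputable def Bc (b0 : ℝ) (E M : ℕ) (F : ℕ → ℝ) (k : ℕ) : ℝ := max (F k) (Nc b0 E M F k)

variable {b0 : ℝ} {E M : ℕ} {F F' : ℕ → ℝ}

theorem mu_pos (hb : 0 < b0) (i : ℕ) : 0 < mu b0 i := by
  unfold mu
  positivity

theorem mu_mono (hb : 0 < b0) {i j : ℕ} (h : i ≤ j) : mu b0 i ≤ mu b0 j := by
  unfold mu
  exact mul_le_mul_of_nonneg_left (pow_le_pow_right₀ (by norm_num) h) hb.le

theorem mu_lt (hb : 0 < b0) {i j : ℕ} (h : mu b0 i < mu b0 j) : i < j := by
  by_contra h1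
  exact absurd (mu_mono hb (not_lt.mp h1)) (not_le.mpr h)

theorem mu_succ (i : ℕ) : mu b0 (i + 1) = 64 * mu b0 i := by
  unfold mu
  ring

theorem XX_of_le {i : ℕ} (h : M ≤ i) : XX b0 E M F i = ∅ := by
  rw [XX]
  simp [h]

theorem XX_of_lt {i : ℕ} (h : i < M) : XX b0 E M F i =
    (range E).filter (fun k => mu b0 i ≤ F k) ∪ TT E (XX b0 E M F (i + 3)) := by
  rw [XX]
  simp [not_le.mpr h]

theorem XX_subset (i : ℕ) : XX b0 E M F i ⊆ range E := by
  rcases Nat.lt_or_ge i M with h | h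
  · rw [XX_of_lt h]
    exact union_subset (filter_subset _ _) (TT_subset _ _)
  · rw [XX_of_le h]
    exact empty_subset _

/-- the recursion holds for all `i` if `F < mu M` -/
theorem XX_eq (hb : 0 < b0) (hM : ∀ k < E, F k < mu b0 M) (i : ℕ) : XX b0 E M F i =
    (range E).filter (fun k => mu b0 i ≤ F k) ∪ TT E (XX b0 E M F (i + 3)) := by
  rcases Nat.lt_or_ge i M with h | h
  · exact XX_of_lt h
  · rw [XX_of_le h, XX_of_le (by omega : M ≤ i + 3), TT_empty]
    symm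
    rw [union_empty, filter_eq_empty_iff]
    intro k hk h1
    have h2 := hM k (mem_range.mp hk)
    have h3 := mu_mono hb h
    linarith

theorem XX_anti_succ (hb : 0 < b0) : ∀ n i : ℕ, M - i = n →
    XX b0 E M F (i + 1) ⊆ XX b0 E M F i := by
  intro n
  induction n using Nat.strong_induction_on with
  | _ n ih =>
    intro i hi
    rcases Nat.lt_or_ge (i + 1) M with h | h
    · rw [XX_of_lt h, XX_of_lt (by omega : i < M)]
      apply union_subset_union
      · intro k hk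
        rw [mem_filter] at hk ⊢
        exact ⟨hk.1, (mu_mono hb (Nat.le_succ i)).trans hk.2⟩
      · apply TT_mono
        have := ih (M - (i + 3)) (by omega) (i + 3) rfl
        rwa [show i + 1 + 3 = i + 3 + 1 by omega]
    · rw [XX_of_le h]
      exact empty_subset _

theorem XX_anti (hb : 0 < b0) {i j : ℕ} (h : i ≤ j) : XX b0 E M F j ⊆ XX b0 E M F i := by
  induction j, h using Nat.le_induction with
  | base => exact Subset.refl _
  | succ j _ ih => exact (XX_anti_succ hb _ j rfl).trans ih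

theorem XX_mono (h : ∀ k < E, F k ≤ F' k) : ∀ n i : ℕ, M - i = n →
    XX b0 E M F i ⊆ XX b0 E M F' i := by
  intro n
  induction n using Nat.strong_induction_on with
  | _ n ih =>
    intro i hi
    rcases Nat.lt_or_ge i M with h1 | h1
    · rw [XX_of_lt h1, XX_of_lt h1]
      apply union_subset_union
      · intro k hk
        rw [mem_filter] at hk ⊢
        exact ⟨hk.1, hk.2.trans (h k (mem_range.mp hk.1))⟩
      · apply TT_mono
        exact ih (M - (i + 3)) (by omega) (i + 3) rfl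
    · rw [XX_of_le h1]
      exact empty_subset _

theorem le_Nc {i k : ℕ} (hk : k ∈ TT E (XX b0 E M F (i + 3))) (hi : i ≤ M) :
    mu b0 i ≤ Nc b0 E M F k := by
  classical
  unfold Nc
  have h1 := Finset.le_sup'
    (fun i => if k ∈ TT E (XX b0 E M F (i + 3)) then mu b0 i else (0 : ℝ))
    (mem_range.mpr (by omega : i < M + 1))
  rw [if_pos hk] at h1
  exact h1

theorem Nc_cases (k : ℕ) : Nc b0 E M F k = 0 ∨
    ∃ i ≤ M, Nc b0 E M F k = mu b0 i ∧ k ∈ TT E (XX b0 E M F (i + 3)) := by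
  classical
  unfold Nc
  obtain ⟨i, hi, h1⟩ := Finset.exists_mem_eq_sup' (nonempty_range_add_one (n := M))
    (fun i => if k ∈ TT E (XX b0 E M F (i + 3)) then mu b0 i else (0 : ℝ))
  rw [h1]
  split_ifs with h2
  · exact Or.inr ⟨i, by have := mem_range.mp hi; omega, rfl, h2⟩
  · exact Or.inl rfl

theorem Nc_nonneg (hb : 0 < b0) (k : ℕ) : 0 ≤ Nc b0 E M F k := by
  rcases Nc_cases (b0 := b0) (E := E) (M := M) (F := F) k with h | ⟨i, _, h, _⟩
  · exact h.ge
  · rw [h]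
    exact (mu_pos hb i).le

theorem F_le_Bc (k : ℕ) : F k ≤ Bc b0 E M F k := le_max_left _ _

/-- `X_i = {B ≥ mu_i}` -/
theorem mem_XX_iff (hb : 0 < b0) (hM : ∀ k < E, F k < mu b0 M) {i k : ℕ} (hk : k < E) :
    k ∈ XX b0 E M F i ↔ mu b0 i ≤ Bc b0 E M F k := by
  rw [XX_eq hb hM i, mem_union, mem_filter, mem_range]
  unfold Bc
  rw [le_max_iff]
  constructor
  · rintro (h | h)
    · exact Or.inl h.2
    · right
      have hi : i ≤ M := by
        by_contra h1
        rw [XX_of_le (by omega : M ≤ i + 3), TT_empty] at h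
        exact absurd h (notMem_empty _)
      exact le_Nc h hi
  · rintro (h | h)
    · exact Or.inl ⟨hk, h⟩
    · right
      rcases Nc_cases (b0 := b0) (E := E) (M := M) (F := F) k with h1 | ⟨j, _, h1, h2⟩
      · rw [h1] at h
        exact absurd h (not_le.mpr (mu_pos hb i))
      · rw [h1] at h
        have h3 : i ≤ j := by
          by_contra h4
          have h5 : mu b0 j < mu b0 i := by
            unfold mu
            exact mul_lt_mul_of_pos_left (pow_lt_pow_right₀ (by norm_num) (not_le.mp h4)) hb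
          linarith
        exact TT_mono E (XX_anti hb (by omega : i + 3 ≤ j + 3)) h2

theorem Nc_mono (h : ∀ k < E, F k ≤ F' k) (hb : 0 < b0) (k : ℕ) :
    Nc b0 E M F k ≤ Nc b0 E M F' k := by
  rcases Nc_cases (b0 := b0) (E := E) (M := M) (F := F) k with h1 | ⟨j, hj, h1, h2⟩
  · rw [h1]
    exact Nc_nonneg hb k
  · rw [h1]
    exact le_Nc (TT_mono E (XX_mono h _ _ rfl) h2) hj

theorem Bc_mono (h : ∀ k < E, F k ≤ F' k) (hb : 0 < b0) {k : ℕ} (hk : k < E) :
    Bc b0 E M F k ≤ Bc b0 E M F' k :=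
  max_le_max (h k hk) (Nc_mono h hb k)

theorem Bc_pos (hb : 0 < b0) (hF : ∀ k < E, b0 ≤ F k) {k : ℕ} (hk : k < E) :
    0 < Bc b0 E M F k := lt_of_lt_of_le hb ((hF k hk).trans (F_le_Bc k))

/-- the scale of a number `≥ b0` -/
theorem exists_scale (hb : 0 < b0) {x : ℝ} (hx : b0 ≤ x) :
    ∃ i : ℕ, mu b0 i ≤ x ∧ x < mu b0 (i + 1) := by
  have h1 : ∃ n : ℕ, x < mu b0 (n + 1) := by
    obtain ⟨n, hn⟩ := pow_unbounded_of_one_lt (x / b0) (by norm_num : (1 : ℝ) < 64)
    refine ⟨n, ?_⟩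
    unfold mu
    have h2 : x < b0 * 64 ^ n := by
      rw [div_lt_iff₀ hb] at hn
      linarith
    have h3 : b0 * (64 : ℝ) ^ n ≤ b0 * 64 ^ (n + 1) :=
      mul_le_mul_of_nonneg_left (pow_le_pow_right₀ (by norm_num) (Nat.le_succ n)) hb.le
    linarith
  classical
  refine ⟨Nat.find h1, ?_, Nat.find_spec h1⟩
  rcases Nat.eq_zero_or_pos (Nat.find h1) with h2 | h2
  · rw [h2]
    unfold mu
    simpa using hx
  · have h3 := Nat.find_min h1 (m := Nat.find h1 - 1) (by omega)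
    rw [Nat.sub_add_cancel h2] at h3
    exact not_lt.mp h3

/-- the constant of the regularity -/
noncomputable def C1 : ℝ := 2 * 64 ^ 4

/-- (2) REGULARITY of `u = 1 / B` -/
theorem regular (hb : 0 < b0) (hF : ∀ k < E, b0 ≤ F k) (hM : ∀ k < E, F k < mu b0 M)
    {a b k : ℕ} (ha : a ≤ k) (hkb : k ≤ b) (hbE : b < E) :
    (Bc b0 E M F k)⁻¹ * ((b : ℝ) + 1 - a) ≤
      C1 * ∑ j ∈ Icc a b, (Bc b0 E M F j)⁻¹ := by
  classical
  set B := Bc b0 E M F with hB
  have hBpos : ∀ j < E, 0 < B j := fun j hj => Bc_pos hb hF hj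
  have hkE : k < E := by omega
  obtain ⟨i, hi1, hi2⟩ := exists_scale hb ((hF k hkE).trans (F_le_Bc (b0 := b0) (E := E)
    (M := M) k))
  have h1 : k ∉ XX b0 E M F (i + 1) := by
    rw [mem_XX_iff hb hM hkE]
    exact not_le.mpr hi2
  have h2 : k ∉ TT E (XX b0 E M F (i + 4)) := by
    intro h3
    apply h1
    rw [XX_eq hb hM (i + 1)]
    exact mem_union_right _ (by rwa [show i + 1 + 3 = i + 4 by omega])
  have h3 := not_TT h2 ha hkb hbE
  set J := Icc a b with hJ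
  have hJc : J.card = b + 1 - a := by rw [hJ, Nat.card_Icc]
  set X := XX b0 E M F (i + 4) with hX
  have h4 : J.card ≤ 2 * (J \ X).card := by
    have h5 : (J \ X).card + (X ∩ J).card = J.card := by
      rw [inter_comm X J]
      exact card_sdiff_add_card_inter J X
    omega
  have h6 : ∀ j ∈ J \ X, (B k)⁻¹ * (64 ^ 4 : ℝ)⁻¹ ≤ (B j)⁻¹ := by
    intro j hj
    rw [mem_sdiff, hJ, mem_Icc] at hj
    have hjE : j < E := by omega
    have h7 : B j < mu b0 (i + 4) := by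
      by_contra h8
      exact hj.2 ((mem_XX_iff hb hM hjE).mpr (not_lt.mp h8))
    have h8 : mu b0 (i + 4) = 64 ^ 4 * mu b0 i := by
      unfold mu
      ring
    have h9 : B j ≤ B k * 64 ^ 4 := by
      rw [h8] at h7
      have : mu b0 i ≤ B k := hi1
      nlinarith
    rw [← mul_inv]
    exact inv_anti₀ (hBpos j hjE) h9
  have h10 : ((J \ X).card : ℝ) * ((B k)⁻¹ * (64 ^ 4 : ℝ)⁻¹) ≤ ∑ j ∈ J, (B j)⁻¹ := by
    calc ((J \ X).card : ℝ) * ((B k)⁻¹ * (64 ^ 4 : ℝ)⁻¹)
        = ∑ j ∈ J \ X, ((B k)⁻¹ * (64 ^ 4 : ℝ)⁻¹) := by rw [sum_const, nsmul_eq_mul]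
      _ ≤ ∑ j ∈ J \ X, (B j)⁻¹ := sum_le_sum h6
      _ ≤ ∑ j ∈ J, (B j)⁻¹ := by
        apply sum_le_sum_of_subset_of_nonneg sdiff_subset
        intro j hj _
        rw [hJ, mem_Icc] at hj
        exact (inv_pos.mpr (hBpos j (by omega))).le
  have h11 : ((b : ℝ) + 1 - a) ≤ 2 * ((J \ X).card : ℝ) := by
    have h12 : ((b + 1 - a : ℕ) : ℝ) = (b : ℝ) + 1 - a := by
      rw [Nat.cast_sub (by omega)]
      push_cast
      ring
    rw [← h12, ← hJc]
    exact_mod_cast h4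
  have h13 : 0 < (B k)⁻¹ := inv_pos.mpr (hBpos k hkE)
  unfold C1
  have h14 : (B k)⁻¹ * ((b : ℝ) + 1 - a) ≤ (B k)⁻¹ * (2 * ((J \ X).card : ℝ)) :=
    mul_le_mul_of_nonneg_left h11 h13.le
  have h15 : (B k)⁻¹ * (2 * ((J \ X).card : ℝ)) =
      2 * 64 ^ 4 * (((J \ X).card : ℝ) * ((B k)⁻¹ * (64 ^ 4 : ℝ)⁻¹)) := by
    field_simp
  rw [h15] at h14
  exact h14.trans (mul_le_mul_of_nonneg_left h10 (by norm_num))

/-- (2) with half open intervals (the form of `SQ0/Cost.lean`) -/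
theorem regular_Ico (hb : 0 < b0) (hF : ∀ k < E, b0 ≤ F k) (hM : ∀ k < E, F k < mu b0 M)
    {i j k : ℕ} (hik : i ≤ k) (hkj : k < j) (hjE : j ≤ E) :
    (Bc b0 E M F k)⁻¹ * ((j : ℝ) - i) ≤ C1 * ∑ x ∈ Ico i j, (Bc b0 E M F x)⁻¹ := by
  obtain ⟨b, rfl⟩ : ∃ b, j = b + 1 := ⟨j - 1, by omega⟩
  have h := regular hb hF hM hik (by omega : k ≤ b) (by omega)
  have h1 : Ico i (b + 1) = Icc i b := by
    ext x
    simp only [mem_Ico, mem_Icc]
    omega
  rw [h1]
  push_cast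
  exact h

end Pool.Agent.MP_a4c1f4_lc.SQ0
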